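import Mathlib
import Pool.Agent.Y997.NW.Stm

/-!
# NW-SEQ (helper420)
-/

set_option autoImplicit false

namespace Pool.Agent.Y420.NW

open Pool.Agent.Y997.NW Pool.Agent.W581.Cyc

theorem irr (q : ℚ) (k l : ℕ) (hkl : k ≠ l) (m : ℤ) :
    (q : ℝ) + (Real.sqrt 2 / ((k:ℝ) + 1) - Real.sqrt 2 / ((l:ℝ) + 1)) ≠ m := by
  intro h
  let c : ℚ := 1 / ((k:ℚ) + 1) - 1 / ((l:ℚ) + 1)
  have hc : c ≠ 0 := by
    intro hc
    apply hkl
    have hk : ((k:ℚ) + 1) ≠ 0 := by positivity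
    have hl : ((l:ℚ) + 1) ≠ 0 := by positivity
    have h1 : (1:ℚ) / ((k:ℚ) + 1) = 1 / ((l:ℚ) + 1) := sub_eq_zero.1 hc
    rw [div_eq_div_iff hk hl, one_mul, one_mul] at h1
    have h2 : (k:ℚ) = l := by linarith
    exact_mod_cast h2
  have h3 : Real.sqrt 2 * (c : ℝ) = ((m - q : ℚ) : ℝ) := by
    push_cast [c]
    rw [← h]
    ring
  have h4 : Irrational (Real.sqrt 2 * (c : ℝ)) := irrational_sqrt_two.mul_ratCast hc
  exact h4.ne_rat _ h3

theorem norm_le2 (z : C2) : ‖z‖ ≤ ‖z 0‖ + ‖z 1‖ := by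
  have h1 := norm_sq_eq z
  rw [Fin.sum_univ_two] at h1
  have h2 : ∀ w : ℂ, w.re ^ 2 + w.im ^ 2 = ‖w‖ ^ 2 := by
    intro w
    rw [← Complex.normSq_eq_norm_sq, Complex.normSq_apply]
    ring
  rw [h2, h2] at h1
  nlinarith [norm_nonneg z, norm_nonneg (z 0), norm_nonneg (z 1)]

theorem t_SEQ : S_SEQ := by
  let e : ℕ ≃ ℚ × ℚ × ℕ := (Denumerable.eqv (ℚ × ℚ × ℕ)).symm
  let a : ℕ → C2 := fun k => WithLp.toLp 2
    ![((((e k).1 : ℝ) + Real.sqrt 2 / ((k:ℝ) + 1) : ℝ) : ℂ), (((e k).2.1 : ℝ) : ℂ)]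
  have ha0 : ∀ k, a k 0 = ((((e k).1 : ℝ) + Real.sqrt 2 / ((k:ℝ) + 1) : ℝ) : ℂ) := fun k => rfl
  have ha1 : ∀ k, a k 1 = (((e k).2.1 : ℝ) : ℂ) := fun k => rfl
  refine ⟨a, ?_, ?_⟩
  · intro x r hr
    obtain ⟨q, hq1, hq2⟩ := exists_rat_btwn (show (x 0).re - r/4 < (x 0).re by linarith)
    obtain ⟨s, hs1, hs2⟩ := exists_rat_btwn (show (x 1).re - r/4 < (x 1).re by linarith)
    -- infinitely many indices
    have hinf : (Set.range (fun n : ℕ => e.symm (q, s, n))).Infinite := by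
      apply Set.infinite_range_of_injective
      intro n n' h
      have := e.symm.injective h
      simpa using this
    obtain ⟨K, hK⟩ := exists_nat_gt (4 * Real.sqrt 2 / r)
    obtain ⟨k, ⟨n, hn⟩, hk⟩ := hinf.exists_gt K
    have hek : e k = (q, s, n) := by
      rw [← hn]; simp
    have hkr : Real.sqrt 2 / ((k:ℝ) + 1) < r / 4 := by
      have h1 : (K:ℝ) < k := by exact_mod_cast hk
      have h2 : 4 * Real.sqrt 2 / r < (k:ℝ) + 1 := by linarith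
      rw [div_lt_iff₀ hr] at h2
      rw [div_lt_div_iff₀ (by positivity) (by norm_num)]
      linarith
    have hkr0 : 0 ≤ Real.sqrt 2 / ((k:ℝ) + 1) := by positivity
    refine ⟨k, (x 0).im, (x 1).im, ?_⟩
    have h0 : (a k + im2 (x 0).im (x 1).im - x) 0 =
        (((q : ℝ) + Real.sqrt 2 / ((k:ℝ) + 1) - (x 0).re : ℝ) : ℂ) := by
      have : (a k + im2 (x 0).im (x 1).im - x) 0 = a k 0 + (x 0).im * Complex.I - x 0 := by
        simp [im2]
      rw [this, ha0, hek]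
      apply Complex.ext <;> simp
    have h1 : (a k + im2 (x 0).im (x 1).im - x) 1 =
        (((s : ℝ) - (x 1).re : ℝ) : ℂ) := by
      have : (a k + im2 (x 0).im (x 1).im - x) 1 = a k 1 + (x 1).im * Complex.I - x 1 := by
        simp [im2]
      rw [this, ha1, hek]
      apply Complex.ext <;> simp
    refine lt_of_le_of_lt (norm_le2 _) ?_
    rw [h0, h1, Complex.norm_real, Complex.norm_real, Real.norm_eq_abs, Real.norm_eq_abs]
    have h2 : |(q : ℝ) + Real.sqrt 2 / ((k:ℝ) + 1) - (x 0).re| < r / 2 := by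
      rw [abs_lt]; constructor <;> linarith
    have h3 : |(s : ℝ) - (x 1).re| < r / 2 := by
      rw [abs_lt]; constructor <;> linarith
    linarith
  · intro k l hkl m hm
    have h0 : (ell (a k - a l)).re = (((e k).1 - (e l).1 + 2 * ((e k).2.1 - (e l).2.1) : ℚ) : ℝ) +
        (Real.sqrt 2 / ((k:ℝ) + 1) - Real.sqrt 2 / ((l:ℝ) + 1)) := by
      have : ell (a k - a l) = (a k 0 - a l 0) + 2 * (a k 1 - a l 1) := rfl
      rw [this, ha0, ha0, ha1, ha1]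
      have h2 : ((((e k).1 : ℝ) + Real.sqrt 2 / ((k:ℝ) + 1) : ℝ) : ℂ) -
          ((((e l).1 : ℝ) + Real.sqrt 2 / ((l:ℝ) + 1) : ℝ) : ℂ) +
          2 * ((((e k).2.1 : ℝ) : ℂ) - (((e l).2.1 : ℝ) : ℂ)) =
          (((((e k).1 - (e l).1 + 2 * ((e k).2.1 - (e l).2.1) : ℚ) : ℝ) +
        (Real.sqrt 2 / ((k:ℝ) + 1) - Real.sqrt 2 / ((l:ℝ) + 1)) : ℝ) : ℂ) := by
        push_cast
        ring
      rw [h2, Complex.ofReal_re]
    rw [h0] at hm
    exact irr _ k l hkl m hm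

end Pool.Agent.Y420.NW
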